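import Mathlib

/-!
# Vague-ergodic measures and mean ergodicity of convolution operators (MP_ec348e_an)

There is a vague-ergodic measure `μ` on a countable discrete group `G` such that the convolution
operator `λ_p(μ)` on `ℓ^p(G)` is not mean ergodic, for every `1 < p < ∞`.

The group is `ℤ × S₃` and `μ = δ₁ + (δ₁ - δ₀) ⋆ n`, with `n` an element of square zero of the
group ring of `S₃`. Then `μ^k = δ_k + k (δ_k - δ_{k-1}) ⋆ n`.
-/

open Filter Topology Set
open scoped ENNReal

namespace Pool.Agent.Results.MP_ec348e_an.VagueNotMean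

/-! ### Definitions: measures on a discrete group `G` are the absolutely summable functions on `G` -/

section Defs

variable {G : Type} [Group G]

/-- Convolution `(μ ⋆ ν)(x) = ∑_y μ(y) ν(y⁻¹ x)`. -/
noncomputable def conv (μ ν : G → ℂ) : G → ℂ := fun x => ∑' y, μ y * ν (y⁻¹ * x)

/-- `convPow μ k` is the convolution power `μ^{k+1}`. -/
noncomputable def convPow (μ : G → ℂ) : ℕ → G → ℂ
  | 0 => μ
  | k + 1 => conv μ (convPow μ k)

/-- `avg μ n = (μ + μ² + ⋯ + μⁿ) / n`. -/
noncomputable def avg (μ : G → ℂ) (n : ℕ) : G → ℂ :=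
  fun x => (n : ℂ)⁻¹ * ∑ k ∈ Finset.range n, convPow μ k x

/-- `μ` is vague-ergodic: there is `ν ∈ ℓ¹(G) = M(G)` such that `(μ + ⋯ + μⁿ)/n → ν` in the
topology `σ(M(G), C₀(G))`. -/
def VagueErgodic (μ : G → ℂ) : Prop :=
  ∃ ν : G → ℂ, (Summable fun x => ‖ν x‖) ∧ ∀ f : G → ℂ, Tendsto f cofinite (𝓝 0) →
    Tendsto (fun n => ∑' x, avg μ n x * f x) atTop (𝓝 (∑' x, ν x * f x))

/-- The space `L^p(G) = ℓ^p(G)`. -/
abbrev Lp (G : Type) (p : ℝ≥0∞) : Type := lp (fun _ : G => ℂ) p

/-- `T` is the convolution operator `λ_p(μ)` on `L^p(G) = ℓ^p(G)`. -/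
def IsConvOp {p : ℝ≥0∞} [Fact (1 ≤ p)] (μ : G → ℂ) (T : Lp G p →L[ℂ] Lp G p) : Prop :=
  ∀ (f : Lp G p) (x : G), T f x = ∑' y, μ y * f (y⁻¹ * x)

end Defs

/-- `T` is mean ergodic: `(T + T² + ⋯ + Tⁿ)/n` converges in the strong operator topology. -/
def MeanErgodic {E : Type} [NormedAddCommGroup E] [NormedSpace ℂ E] (T : E →L[ℂ] E) : Prop :=
  ∃ P : E →L[ℂ] E, ∀ f : E,
    Tendsto (fun n : ℕ => (n : ℂ)⁻¹ • ∑ k ∈ Finset.range n, (T ^ (k + 1)) f) atTop (𝓝 (P f))

/-- The convolution operator `λ_p(μ)` exists as a bounded operator on `ℓ^p(G)`, and it is not mean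
ergodic. -/
def ConvNotMeanErgodic {G : Type} [Group G] (μ : G → ℂ) (p : ℝ≥0∞) [Fact (1 ≤ p)] : Prop :=
  ∃ T : Lp G p →L[ℂ] Lp G p, IsConvOp μ T ∧ ¬ MeanErgodic T

/-! ### The nilpotent element of the group ring of `S₃` -/

/-- A transposition. -/
def s : Equiv.Perm (Fin 3) := Equiv.swap 0 1
/-- Another transposition. -/
def t : Equiv.Perm (Fin 3) := Equiv.swap 1 2

/-- `t + ts - st - sts`. -/
def nilZ (h : Equiv.Perm (Fin 3)) : ℤ :=
  if h = t ∨ h = t * s then 1 else if h = s * t ∨ h = s * t * s then -1 else 0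

lemma nilZ_sq : ∀ h, ∑ g, nilZ g * nilZ (g⁻¹ * h) = 0 := by decide
lemma nilZ_t : nilZ t = 1 := by decide
lemma t_ne : t ≠ 1 := by decide
lemma nilZ_abs : ∀ h, |nilZ h| ≤ 1 := by decide

/-- the same with complex values -/
noncomputable def nil (h : Equiv.Perm (Fin 3)) : ℂ := (nilZ h : ℂ)

lemma nil_sq (h : Equiv.Perm (Fin 3)) : ∑ g, nil g * nil (g⁻¹ * h) = 0 := by
  have := nilZ_sq h
  unfold nil
  exact_mod_cast this

lemma nil_norm (h : Equiv.Perm (Fin 3)) : ‖nil h‖ ≤ 1 := by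
  unfold nil
  rw [Complex.norm_intCast]
  exact_mod_cast nilZ_abs h

/-- the unit of the group ring -/
noncomputable def one' (h : Equiv.Perm (Fin 3)) : ℂ := if h = 1 then 1 else 0

lemma one'_norm (h : Equiv.Perm (Fin 3)) : ‖one' h‖ ≤ 1 := by
  unfold one'
  split_ifs <;> simp

lemma nil_one' (h : Equiv.Perm (Fin 3)) : ∑ g, nil g * one' (g⁻¹ * h) = nil h := by
  rw [Finset.sum_eq_single h]
  · simp [one']
  · intro g _ hg
    have : g⁻¹ * h ≠ 1 := fun h' => hg (inv_mul_eq_one.1 h')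
    simp [one', this]
  · simp

/-! ### The measure -/

/-- The group `ℤ × S₃`. -/
abbrev G := Multiplicative ℤ × Equiv.Perm (Fin 3)

/-- `[j = k]` -/
noncomputable def dl (k j : ℤ) : ℂ := if j = k then 1 else 0

/-- `μ = δ₁ + (δ₁ - δ₀) ⋆ n` -/
noncomputable def mu (x : G) : ℂ :=
  dl 1 x.1.toAdd * one' x.2 + (dl 1 x.1.toAdd - dl 0 x.1.toAdd) * nil x.2

/-- the finite set containing the support of `μ` -/
def F : Finset G := ({Multiplicative.ofAdd 0, Multiplicative.ofAdd 1} : Finset (Multiplicative ℤ)) ×ˢ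
  (Finset.univ : Finset (Equiv.Perm (Fin 3)))

lemma mu_support {x : G} (hx : x ∉ F) : mu x = 0 := by
  have h0 : x.1.toAdd ≠ 0 := by
    intro h
    apply hx
    unfold F
    rw [Finset.mem_product]
    refine ⟨?_, Finset.mem_univ _⟩
    rw [Finset.mem_insert]
    left
    rw [← h]; rfl
  have h1 : x.1.toAdd ≠ 1 := by
    intro h
    apply hx
    unfold F
    rw [Finset.mem_product]
    refine ⟨?_, Finset.mem_univ _⟩
    rw [Finset.mem_insert, Finset.mem_singleton]
    right
    rw [← h]; rfl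
  unfold mu dl
  rw [if_neg h0, if_neg h1]
  simp

lemma tsum_mu (g : G → ℂ) : ∑' y, mu y * g y = ∑ y ∈ F, mu y * g y :=
  tsum_eq_sum fun y hy => by rw [mu_support hy, zero_mul]

/-- Convolution with `μ` -/
lemma conv_mu (ν : G → ℂ) (j : ℤ) (h : Equiv.Perm (Fin 3)) :
    conv mu ν (Multiplicative.ofAdd j, h) = ν (Multiplicative.ofAdd (j - 1), h) +
      ∑ g, nil g * (ν (Multiplicative.ofAdd (j - 1), g⁻¹ * h) - ν (Multiplicative.ofAdd j, g⁻¹ * h)) := by
  unfold conv
  rw [tsum_mu (fun y => ν (y⁻¹ * (Multiplicative.ofAdd j, h)))]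
  unfold F
  rw [Finset.sum_product]
  rw [Finset.sum_pair (by decide)]
  have e0 : ∀ g : Equiv.Perm (Fin 3),
      mu (Multiplicative.ofAdd 0, g) = - nil g := by
    intro g; simp [mu, dl]
  have e1 : ∀ g : Equiv.Perm (Fin 3),
      mu (Multiplicative.ofAdd 1, g) = one' g + nil g := by
    intro g; simp [mu, dl]
  have f0 : ∀ g : Equiv.Perm (Fin 3), ((Multiplicative.ofAdd (0 : ℤ), g) : G)⁻¹ *
      (Multiplicative.ofAdd j, h) = (Multiplicative.ofAdd j, g⁻¹ * h) := by
    intro g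
    ext1
    · show (Multiplicative.ofAdd (0 : ℤ))⁻¹ * Multiplicative.ofAdd j = _
      rw [← ofAdd_neg, ← ofAdd_add]; simp
    · rfl
  have f1 : ∀ g : Equiv.Perm (Fin 3), ((Multiplicative.ofAdd (1 : ℤ), g) : G)⁻¹ *
      (Multiplicative.ofAdd j, h) = (Multiplicative.ofAdd (j - 1), g⁻¹ * h) := by
    intro g
    ext1
    · show (Multiplicative.ofAdd (1 : ℤ))⁻¹ * Multiplicative.ofAdd j = _
      rw [← ofAdd_neg, ← ofAdd_add]; congr 1; ring
    · rfl
  simp_rw [e0, e1, f0, f1]
  have h1 : ∑ g, one' g * ν (Multiplicative.ofAdd (j - 1), g⁻¹ * h) =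
      ν (Multiplicative.ofAdd (j - 1), h) := by
    rw [Finset.sum_eq_single 1]
    · simp [one']
    · intro g _ hg; simp [one', hg]
    · simp
  simp_rw [add_mul, Finset.sum_add_distrib, h1, mul_sub, Finset.sum_sub_distrib, neg_mul,
    Finset.sum_neg_distrib]
  ring

/-- `μ^{k+1} = δ_{k+1} + (k+1) (δ_{k+1} - δ_k) ⋆ n` -/
lemma convPow_mu (k : ℕ) (j : ℤ) (h : Equiv.Perm (Fin 3)) :
    convPow mu k (Multiplicative.ofAdd j, h) =
      dl (k + 1) j * one' h + (k + 1) * (dl (k + 1) j - dl k j) * nil h := by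
  induction k generalizing j h with
  | zero => simp [convPow, mu]
  | succ k ih =>
    show conv mu (convPow mu k) _ = _
    rw [conv_mu]
    simp_rw [ih]
    have hd : ∀ m : ℤ, dl m (j - 1) = dl (m + 1) j := by
      intro m
      unfold dl
      congr 1
      rw [eq_iff_iff]
      constructor <;> intro h' <;> omega
    simp_rw [hd]
    have h1 : ∀ g : Equiv.Perm (Fin 3), nil g *
        (dl (k + 1 + 1) j * one' (g⁻¹ * h) + (k + 1) * (dl (k + 1 + 1) j - dl (k + 1) j) * nil (g⁻¹ * h) -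
          (dl (k + 1) j * one' (g⁻¹ * h) + (k + 1) * (dl (k + 1) j - dl k j) * nil (g⁻¹ * h))) =
        (dl (k + 1 + 1) j - dl (k + 1) j) * (nil g * one' (g⁻¹ * h)) +
        ((k + 1) * (dl (k + 1 + 1) j - dl (k + 1) j) - (k + 1) * (dl (k + 1) j - dl k j)) *
          (nil g * nil (g⁻¹ * h)) := by
      intro g; ring
    simp_rw [h1, Finset.sum_add_distrib, ← Finset.mul_sum, nil_one', nil_sq]
    push_cast
    ring

/-- `n` times the average. -/
lemma sum_convPow (n : ℕ) (j : ℤ) (h : Equiv.Perm (Fin 3)) :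
    ∑ k ∈ Finset.range n, convPow mu k (Multiplicative.ofAdd j, h) =
      (if 1 ≤ j ∧ j ≤ n then 1 else 0) * one' h - (if 0 ≤ j ∧ j < n then 1 else 0) * nil h +
        n * dl n j * nil h := by
  induction n with
  | zero =>
    have h1 : ¬ (1 ≤ j ∧ j ≤ ((0 : ℕ) : ℤ)) := by push_cast; omega
    have h2 : ¬ (0 ≤ j ∧ j < ((0 : ℕ) : ℤ)) := by push_cast; omega
    rw [if_neg h1, if_neg h2]
    simp
  | succ n ih =>
    rw [Finset.sum_range_succ, ih, convPow_mu]
    have e1 : ((if 1 ≤ j ∧ j ≤ ((n + 1 : ℕ) : ℤ) then 1 else 0 : ℂ)) =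
        (if 1 ≤ j ∧ j ≤ (n : ℤ) then 1 else 0) + dl (n + 1) j := by
      unfold dl
      push_cast
      by_cases c1 : j = n + 1
      · rw [if_pos c1, if_pos (by omega), if_neg (by omega), zero_add]
      · rw [if_neg c1, add_zero]
        congr 1
        rw [eq_iff_iff]
        constructor <;> intro h' <;> omega
    have e2 : ((if 0 ≤ j ∧ j < ((n + 1 : ℕ) : ℤ) then 1 else 0 : ℂ)) =
        (if 0 ≤ j ∧ j < (n : ℤ) then 1 else 0) + dl n j := by
      unfold dl
      push_cast
      by_cases c1 : j = n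
      · rw [if_pos c1, if_pos (by omega), if_neg (by omega), zero_add]
      · rw [if_neg c1, add_zero]
        congr 1
        rw [eq_iff_iff]
        constructor <;> intro h' <;> omega
    rw [e1, e2]
    push_cast
    ring

lemma avg_mu (n : ℕ) (j : ℤ) (h : Equiv.Perm (Fin 3)) :
    avg mu n (Multiplicative.ofAdd j, h) = (n : ℂ)⁻¹ *
      ((if 1 ≤ j ∧ j ≤ n then 1 else 0) * one' h - (if 0 ≤ j ∧ j < n then 1 else 0) * nil h +
        n * dl n j * nil h) := by
  unfold avg
  rw [sum_convPow]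

/-! ### Vague ergodicity -/

lemma tsum_avg (f : G → ℂ) (n : ℕ) :
    ∑' x, avg mu n x * f x = ∑ j ∈ Finset.range (n + 1), ∑ h,
      avg mu n (Multiplicative.ofAdd (j : ℤ), h) * f (Multiplicative.ofAdd (j : ℤ), h) := by
  set s : Finset G := ((Finset.range (n + 1)).image
    (fun j : ℕ => (Multiplicative.ofAdd (j : ℤ) : Multiplicative ℤ))) ×ˢ Finset.univ with hs
  rw [tsum_eq_sum (s := s)]
  · rw [hs, Finset.sum_product, Finset.sum_image]
    intro a _ b _ hab
    have : (a : ℤ) = b := hab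
    exact_mod_cast this
  · rintro ⟨x, h⟩ hx
    obtain ⟨j, hxj⟩ : ∃ j : ℤ, Multiplicative.ofAdd j = x := ⟨x.toAdd, rfl⟩
    subst hxj
    have hj : ¬ (0 ≤ j ∧ j ≤ n) := by
      rintro ⟨h0, h1⟩
      apply hx
      rw [hs, Finset.mem_product]
      refine ⟨?_, Finset.mem_univ _⟩
      rw [Finset.mem_image]
      refine ⟨j.toNat, Finset.mem_range.2 (by omega), ?_⟩
      show Multiplicative.ofAdd ((j.toNat : ℕ) : ℤ) = Multiplicative.ofAdd j
      rw [Int.toNat_of_nonneg h0]
    rw [avg_mu, if_neg (by omega), if_neg (by omega)]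
    have : dl n j = 0 := by unfold dl; rw [if_neg (by omega)]
    rw [this]
    simp

/-- the norm of `f` on the fibre over `j` -/
noncomputable def fib (f : G → ℂ) (j : ℕ) : ℝ := ∑ h, ‖f (Multiplicative.ofAdd (j : ℤ), h)‖

lemma fib_tendsto {f : G → ℂ} (hf : Tendsto f cofinite (𝓝 0)) : Tendsto (fib f) atTop (𝓝 0) := by
  unfold fib
  rw [show (0 : ℝ) = ∑ h : Equiv.Perm (Fin 3), (0 : ℝ) by simp]
  refine tendsto_finsetSum _ fun h _ => ?_
  have hinj : Function.Injective (fun j : ℕ => ((Multiplicative.ofAdd (j : ℤ), h) : G)) := by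
    intro a b hab
    have : (a : ℤ) = b := (Prod.ext_iff.1 hab).1
    exact_mod_cast this
  have h1 : Tendsto (fun j : ℕ => ((Multiplicative.ofAdd (j : ℤ), h) : G)) atTop cofinite := by
    rw [← Nat.cofinite_eq_atTop]
    exact hinj.tendsto_cofinite
  have h2 := (hf.comp h1).norm
  simpa using h2

lemma vague : VagueErgodic mu := by
  refine ⟨fun _ => 0, by simp, fun f hf => ?_⟩
  simp only [zero_mul, tsum_zero]
  have hb := fib_tendsto hf
  have hc : Tendsto (fun n : ℕ => 2 * ((n : ℝ)⁻¹ * ∑ j ∈ Finset.range n, fib f j) +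
      2 * ((n : ℝ)⁻¹ * fib f n) + fib f n) atTop (𝓝 0) := by
    have h1 := hb.cesaro
    have h2 : Tendsto (fun n : ℕ => (n : ℝ)⁻¹ * fib f n) atTop (𝓝 (0 * 0)) :=
      tendsto_inv_atTop_nhds_zero_nat.mul hb
    have h3 := ((h1.const_mul 2).add (h2.const_mul 2)).add hb
    simpa using h3
  apply squeeze_zero_norm' _ hc
  filter_upwards [eventually_ge_atTop 1] with n hn
  have hn0 : (0 : ℝ) < n := by exact_mod_cast hn
  rw [tsum_avg]
  have hfib0 : ∀ j, 0 ≤ fib f j := fun j => Finset.sum_nonneg fun _ _ => norm_nonneg _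
  -- bound on a fibre
  have hfibre : ∀ j ∈ Finset.range (n + 1), ‖∑ h, avg mu n (Multiplicative.ofAdd (j : ℤ), h) *
      f (Multiplicative.ofAdd (j : ℤ), h)‖ ≤ (2 * (n : ℝ)⁻¹ + if j = n then 1 else 0) * fib f j := by
    intro j _
    refine (norm_sum_le _ _).trans ?_
    unfold fib
    rw [Finset.mul_sum]
    refine Finset.sum_le_sum fun h _ => ?_
    rw [norm_mul]
    refine mul_le_mul_of_nonneg_right ?_ (norm_nonneg _)
    rw [avg_mu, mul_add]
    refine (norm_add_le _ _).trans ?_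
    apply add_le_add
    · rw [norm_mul, norm_inv, Complex.norm_natCast, mul_comm]
      refine mul_le_mul_of_nonneg_right ?_ (by positivity)
      refine (norm_sub_le _ _).trans ?_
      have hA : ‖(if 1 ≤ (j : ℤ) ∧ (j : ℤ) ≤ n then 1 else 0 : ℂ) * one' h‖ ≤ 1 := by
        rw [norm_mul]
        have := one'_norm h
        split_ifs
        · simpa using this
        · simp
      have hB : ‖(if 0 ≤ (j : ℤ) ∧ (j : ℤ) < n then 1 else 0 : ℂ) * nil h‖ ≤ 1 := by
        rw [norm_mul]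
        have := nil_norm h
        split_ifs
        · simpa using this
        · simp
      linarith
    · unfold dl
      by_cases c : j = n
      · subst c
        rw [if_pos rfl, if_pos rfl]
        have hj0 : (j : ℂ) ≠ 0 := by
          have : j ≠ 0 := by omega
          exact_mod_cast this
        rw [mul_one, ← mul_assoc, inv_mul_cancel₀ hj0, one_mul]
        exact nil_norm h
      · have c' : ¬ ((j : ℤ) = (n : ℤ)) := by exact_mod_cast c
        rw [if_neg c, if_neg c']
        simp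
  refine (norm_sum_le _ _).trans ((Finset.sum_le_sum hfibre).trans ?_)
  rw [Finset.sum_range_succ, if_pos rfl]
  have h4 : ∑ j ∈ Finset.range n, (2 * (n : ℝ)⁻¹ + if j = n then 1 else 0) * fib f j =
      2 * (n : ℝ)⁻¹ * ∑ j ∈ Finset.range n, fib f j := by
    rw [Finset.mul_sum]
    refine Finset.sum_congr rfl fun j hj => ?_
    rw [Finset.mem_range] at hj
    rw [if_neg (by omega), add_zero]
  rw [h4]
  apply le_of_eq
  ring

/-! ### The convolution operator -/

section Op

variable {p : ℝ≥0∞} [Fact (1 ≤ p)]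

/-- left translation on `ℓ^p` -/
noncomputable def transl (hp : p ≠ ⊤) (y : G) :
    lp (fun _ : G => ℂ) p →L[ℂ] lp (fun _ : G => ℂ) p :=
  have hp0 : 0 < p.toReal := ENNReal.toReal_pos (by
    have := (Fact.out : 1 ≤ p)
    intro h; rw [h] at this; simp at this) hp
  LinearMap.mkContinuous
    { toFun := fun f => ⟨fun x => f (y⁻¹ * x), by
        have hf := lp.memℓp f
        rw [memℓp_gen_iff hp0] at hf
        apply memℓp_gen
        exact hf.comp_injective (Equiv.mulLeft y⁻¹).injective⟩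
      map_add' := fun f g => by ext x; rfl
      map_smul' := fun c f => by ext x; rfl }
    1 (by
      intro f
      rw [one_mul]
      apply le_of_eq
      rw [lp.norm_eq_tsum_rpow hp0, lp.norm_eq_tsum_rpow hp0]
      congr 1
      exact (Equiv.mulLeft y⁻¹).tsum_eq (fun x => ‖f x‖ ^ p.toReal))

lemma transl_apply (hp : p ≠ ⊤) (y x : G) (f : lp (fun _ : G => ℂ) p) :
    transl hp y f x = f (y⁻¹ * x) := rfl

lemma exists_op (hp : p ≠ ⊤) :
    ∃ T : lp (fun _ : G => ℂ) p →L[ℂ] lp (fun _ : G => ℂ) p, IsConvOp mu T := by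
  refine ⟨∑ y ∈ F, mu y • transl hp y, fun f x => ?_⟩
  rw [tsum_mu (fun y => f (y⁻¹ * x))]
  rw [_root_.sum_apply, lp.coeFn_sum, Finset.sum_apply]
  refine Finset.sum_congr rfl fun y _ => ?_
  rfl

/-- the powers of the operator applied to the Dirac function -/
lemma pow_apply {T : lp (fun _ : G => ℂ) p →L[ℂ] lp (fun _ : G => ℂ) p} (hT : IsConvOp mu T)
    (k : ℕ) (x : G) : (T ^ (k + 1)) (lp.single p (1 : G) (1 : ℂ)) x = convPow mu k x := by
  induction k generalizing x with
  | zero =>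
    rw [pow_one, hT]
    rw [tsum_eq_single x]
    · rw [inv_mul_cancel, lp.single_apply_self, mul_one]; rfl
    · intro y hy
      have : y⁻¹ * x ≠ 1 := fun h => hy (inv_mul_eq_one.1 h)
      rw [lp.single_apply_ne _ _ _ this, mul_zero]
  | succ k ih =>
    rw [pow_succ', mul_apply_eq_comp, hT]
    simp_rw [ih]
    rfl

lemma not_mean (hp1 : 1 < p)
    {T : lp (fun _ : G => ℂ) p →L[ℂ] lp (fun _ : G => ℂ) p} (hT : IsConvOp mu T) :
    ¬ MeanErgodic T := by
  rintro ⟨P, hP⟩
  have hp0 : p ≠ 0 := (lt_trans one_pos hp1).ne'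
  have h := hP (lp.single p (1 : G) (1 : ℂ))
  set g := P (lp.single p (1 : G) (1 : ℂ)) with hg
  set a : ℕ → lp (fun _ : G => ℂ) p :=
    fun n => (n : ℂ)⁻¹ • ∑ k ∈ Finset.range n, (T ^ (k + 1)) (lp.single p (1 : G) (1 : ℂ)) with ha
  have hval : ∀ n x, a n x = avg mu n x := by
    intro n x
    rw [ha]
    show ((n : ℂ)⁻¹ • (⇑(∑ k ∈ Finset.range n, (T ^ (k + 1)) (lp.single p (1 : G) (1 : ℂ))))) x = _
    rw [lp.coeFn_sum, Pi.smul_apply, Finset.sum_apply]
    simp_rw [pow_apply hT]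
    rfl
  have hnorm : Tendsto (fun n => ‖a n - g‖) atTop (𝓝 0) := by
    rw [← tendsto_iff_norm_sub_tendsto_zero]; exact h
  -- the limit vanishes
  have hg0 : ∀ x, g x = 0 := by
    rintro ⟨x, σ⟩
    obtain ⟨j, hxj⟩ : ∃ j : ℤ, Multiplicative.ofAdd j = x := ⟨x.toAdd, rfl⟩
    subst hxj
    have h1 : Tendsto (fun n => a n (Multiplicative.ofAdd j, σ)) atTop
        (𝓝 (g (Multiplicative.ofAdd j, σ))) := by
      rw [tendsto_iff_norm_sub_tendsto_zero]
      refine squeeze_zero (fun n => norm_nonneg _) (fun n => ?_) hnorm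
      exact lp.norm_apply_le_norm hp0 (a n - g) (Multiplicative.ofAdd j, σ)
    have h2 : Tendsto (fun n => a n (Multiplicative.ofAdd j, σ)) atTop (𝓝 0) := by
      have h3 : Tendsto (fun n : ℕ => 2 * (n : ℝ)⁻¹) atTop (𝓝 0) := by
        simpa using tendsto_inv_atTop_nhds_zero_nat.const_mul (2 : ℝ)
      refine squeeze_zero_norm' ?_ h3
      filter_upwards [eventually_gt_atTop (j.toNat)] with n hn
      rw [hval, avg_mu]
      have hd : dl n j = 0 := by unfold dl; rw [if_neg (by omega)]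
      rw [hd, mul_zero, zero_mul, add_zero, norm_mul, norm_inv, Complex.norm_natCast, mul_comm]
      refine mul_le_mul_of_nonneg_right ?_ (by positivity)
      refine (norm_sub_le _ _).trans ?_
      have hA : ‖(if 1 ≤ j ∧ j ≤ n then 1 else 0 : ℂ) * one' σ‖ ≤ 1 := by
        rw [norm_mul]
        have := one'_norm σ
        split_ifs
        · simpa using this
        · simp
      have hB : ‖(if 0 ≤ j ∧ j < n then 1 else 0 : ℂ) * nil σ‖ ≤ 1 := by
        rw [norm_mul]
        have := nil_norm σ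
        split_ifs
        · simpa using this
        · simp
      linarith
    exact tendsto_nhds_unique h1 h2
  -- but the averages do not become small
  have hbig : ∀ n ≥ 1, 1 ≤ ‖a n - g‖ := by
    intro n hn
    refine le_trans ?_ (lp.norm_apply_le_norm hp0 (a n - g) (Multiplicative.ofAdd (n : ℤ), t))
    show 1 ≤ ‖a n (Multiplicative.ofAdd (n : ℤ), t) - g (Multiplicative.ofAdd (n : ℤ), t)‖
    rw [hg0, sub_zero, hval, avg_mu]
    have hn0 : (n : ℂ) ≠ 0 := by
      have : n ≠ 0 := by omega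
      exact_mod_cast this
    have h1 : one' t = 0 := by unfold one'; rw [if_neg t_ne]
    have h2 : nil t = 1 := by unfold nil; rw [nilZ_t]; simp
    have h3 : dl n n = 1 := by simp [dl]
    rw [h1, h2, h3, if_neg (by omega : ¬ (0 ≤ (n : ℤ) ∧ (n : ℤ) < n))]
    simp [hn0]
  have := ge_of_tendsto hnorm ((eventually_ge_atTop 1).mono hbig)
  linarith

end Op

/-- **Theorem.** There are a countable discrete group `G` and a measure `μ ∈ M(G) = ℓ¹(G)` which is
vague-ergodic, such that for all `1 < p < ∞` the convolution operator `λ_p(μ)` on `ℓ^p(G)` is not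
mean ergodic. -/
theorem result : ∃ (G : Type) (_ : Group G) (_ : Countable G) (μ : G → ℂ),
    (Summable fun x => ‖μ x‖) ∧ VagueErgodic μ ∧
    ∀ (p : ℝ≥0∞) [Fact (1 ≤ p)], 1 < p → p ≠ ⊤ → ConvNotMeanErgodic μ p := by
  refine ⟨G, inferInstance, inferInstance, mu, ?_, vague, fun p _ hp1 hp => ?_⟩
  · refine summable_of_ne_finset_zero (s := F) fun x hx => ?_
    rw [mu_support hx, norm_zero]
  · obtain ⟨T, hT⟩ := exists_op (p := p) hp
    exact ⟨T, hT, not_mean hp1 hT⟩

end Pool.Agent.Results.MP_ec348e_an.VagueNotMean
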